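import Pool.Agent.ZDM.Finish

/-!
# `C(B(κ))` has no zero-dimensional model, for every uncountable `κ`

`B(κ)` is the unit ball of `ℓ₁(κ)` with the topology of pointwise convergence. For every uncountable
index set `κ` the Banach space `C(B(κ))` is not isomorphic to `C(L)` for any zero-dimensional compact
Hausdorff space `L`.
-/

set_option autoImplicit false

namespace Pool.Agent.Results.MP_751bb7_an.AllUncountable

open Pool.Agent.H53.ZD

universe u v

/-- `B(κ)`: the families `x : κ → ℝ` with `∑ |x i| ≤ 1`, with the topology of pointwise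
convergence (the subspace topology of the product topology). -/
abbrev B (κ : Type u) : Type u := {x : κ → ℝ // Summable (fun i => |x i|) ∧ ∑' i, |x i| ≤ 1}

/-- A space is zero-dimensional if its clopen sets form a base of the topology. -/
def ZeroDimensional (L : Type v) [TopologicalSpace L] : Prop :=
  TopologicalSpace.IsTopologicalBasis {s : Set L | IsClopen s}

/-- `B κ` in the form used in the proof. -/
def homeo (κ : Type u) : B κ ≃ₜ Ball κ where
  toFun x := Ball.mk' x.1 fun s => (x.2.1.sum_le_tsum s fun _ _ => abs_nonneg _).trans x.2.2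
  invFun x := ⟨fun i => x i, x.summable, by
    have := Ball.mass_le_one Set.univ x
    unfold Ball.mass at this
    simpa using this⟩
  left_inv _ := rfl
  right_inv _ := rfl
  continuous_toFun := by
    rw [Ball.continuous_iff]
    intro i
    exact (continuous_apply i).comp continuous_subtype_val
  continuous_invFun := by
    refine Continuous.subtype_mk ?_ _
    exact Ball.continuous_val

/-- the spaces of continuous functions on homeomorphic spaces -/
def congrL {X Y : Type*} [TopologicalSpace X] [TopologicalSpace Y] (h : X ≃ₜ Y) :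
    C(Y, ℝ) ≃L[ℝ] C(X, ℝ) where
  toFun f := f.comp ⟨h, h.continuous⟩
  invFun f := f.comp ⟨h.symm, h.symm.continuous⟩
  map_add' _ _ := rfl
  map_smul' _ _ := rfl
  left_inv f := by ext y; simp
  right_inv f := by ext x; simp
  continuous_toFun := ContinuousMap.continuous_precomp _
  continuous_invFun := ContinuousMap.continuous_precomp _

lemma totallyDisconnected (L : Type v) [TopologicalSpace L] [T2Space L]
    (hL : ZeroDimensional L) : TotallyDisconnectedSpace L := by
  have : TotallySeparatedSpace L := by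
    rw [totallySeparatedSpace_iff_exists_isClopen]
    intro x y hxy
    obtain ⟨s, hs, hxs, hsy⟩ := hL.exists_subset_of_mem_open (a := x) (u := {y}ᶜ) hxy
      isOpen_compl_singleton
    exact ⟨s, hs, hxs, fun hy => hsy hy rfl⟩
  infer_instance

lemma bound {X Y : Type*} [TopologicalSpace X] [CompactSpace X] [TopologicalSpace Y]
    [CompactSpace Y] (T : C(X, ℝ) →L[ℝ] C(Y, ℝ)) {C : ℝ} (hC : ‖T‖ ≤ C) (f : C(X, ℝ)) (M : ℝ)
    (hf : ∀ x, |f x| ≤ M) (hM : 0 ≤ M) (y : Y) : |T f y| ≤ C * M := by
  have h1 : ‖f‖ ≤ M := (ContinuousMap.norm_le f hM).2 fun x => by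
    simpa [Real.norm_eq_abs] using hf x
  calc |T f y| = ‖T f y‖ := (Real.norm_eq_abs _).symm
    _ ≤ ‖T f‖ := ContinuousMap.norm_coe_le_norm _ _
    _ ≤ ‖T‖ * ‖f‖ := T.le_opNorm f
    _ ≤ C * M := mul_le_mul hC h1 (norm_nonneg _) (T.opNorm_nonneg.trans hC)

theorem result (κ : Type u) [Uncountable κ] (L : Type v) [TopologicalSpace L] [CompactSpace L]
    [T2Space L] (hL : ZeroDimensional L) : IsEmpty (C(B κ, ℝ) ≃L[ℝ] C(L, ℝ)) := by
  classical
  refine ⟨fun T => ?_⟩
  have := totallyDisconnected L hL
  let _ : MeasurableSpace L := borel L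
  have _ : BorelSpace L := ⟨rfl⟩
  let T' : C(L, ℝ) ≃L[ℝ] C(Ball κ, ℝ) := T.symm.trans (congrL (homeo κ).symm)
  let S : Pool.Agent.ZDB.Sys κ L :=
    { T := T'
      C := max 1 (max ‖(T' : C(L, ℝ) →L[ℝ] C(Ball κ, ℝ))‖
        ‖(T'.symm : C(Ball κ, ℝ) →L[ℝ] C(L, ℝ))‖)
      one_le := le_max_left _ _
      hT := fun f M hf hM y => bound (T' : C(L, ℝ) →L[ℝ] C(Ball κ, ℝ))
        ((le_max_left _ _).trans (le_max_right _ _)) f M hf hM y
      hV := fun g M hg hM l => bound (T'.symm : C(Ball κ, ℝ) →L[ℝ] C(L, ℝ))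
        ((le_max_right _ _).trans (le_max_right _ _)) g M hg hM l }
  exact S.no_sys

end Pool.Agent.Results.MP_751bb7_an.AllUncountable
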